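import Pool.Agent.helper62.DP8.Spec

/-!
`BFI` of the project sq8: (MP_e3efbc_co): the last two vertices of the cycle, case B.
-/

set_option autoImplicit false

namespace Pool.Agent.helper62.DP8

theorem BFI_core (hPIG : PIG_stmt) (hCLO : CLO_stmt) (k : ℕ) (W : Type) (a : ℕ → Finset W)
    (R : W → W → Prop) (t : ℕ → Bool → W → Prop) (hC : Cyc (k + 5) W a R t) (hT : Tight W a t)
    (c : ℕ → W) (hB : ChB W a R t (k + 3) c) : Ans (k + 5) W a R t := by
  have ha0 : a (k + 5) = a 0 := by
    have h := hC.pa 0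
    rwa [Nat.zero_add] at h
  have ht0 : ∀ s x, t (k + 5) s x ↔ t 0 s x := by
    intro s x
    have h := hC.pt 0 s x
    rwa [Nat.zero_add] at h
  have ht1 : ∀ s x, t (k + 6) s x ↔ t 1 s x := by
    intro s x
    have h := hC.pt 1 s x
    have h6 : 1 + (k + 5) = k + 6 := by omega
    rwa [h6] at h
  have mem2 : c (k + 2) ∈ a (k + 2) := hB.mem (k + 2) (by omega) (by omega)
  have mem3 : c (k + 3) ∈ a (k + 3) := hB.mem (k + 3) (by omega) (by omega)
  have memc1 : c 1 ∈ a 1 := hB.mem 1 (by omega) (by omega)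
  have memc2 : c 2 ∈ a 2 := hB.mem 2 (by omega) (by omega)
  obtain ⟨s, hs1, hs2⟩ := hB.pm
  have hs1' : ¬ t (k + 3) s (c (k + 2)) := hs1
  -- the vertex `g - 1`
  obtain ⟨x, hx, hxP⟩ := hPIG W (a (k + 4)) [R (c (k + 3)), R (c (k + 2)), R (c 1), t (k + 3) s]
    (by
      have := hC.six (k + 4)
      simp only [List.length_cons, List.length_nil]
      omega)
    (by
      intro p hp y hy y' hy' h h'
      simp only [List.mem_cons, List.not_mem_nil, or_false] at hp
      rcases hp with rfl | rfl | rfl | rfl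
      · exact hC.mat (k + 3) (k + 4) (by omega) (by omega) _ mem3 y hy y' hy' h h'
      · exact hC.mat (k + 2) (k + 4) (by omega) (by omega) _ mem2 y hy y' hy' h h'
      · exact hC.mat 1 (k + 4) (by omega) (by omega) _ memc1 y hy y' hy' h h'
      · exact hC.one (k + 3) (k + 3) s (le_refl _) (by omega) y hy y' hy' h h')
  have hx1 : ¬ R (c (k + 3)) x := hxP _ (by simp)
  have hx2 : ¬ R (c (k + 2)) x := hxP _ (by simp)
  have hx3 : ¬ R (c 1) x := hxP _ (by simp)
  have hx4 : ¬ t (k + 3) s x := hxP _ (by simp)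
  -- a colour of the pendant is left for `z`
  have hsz : ∀ z ∈ a 0, ∀ j, k + 4 ≤ j → j ≤ k + 6 → ∃ r, ¬ t j r z := by
    intro z hz j h1 h2
    have h := hC.sgn (k + 4) j h1 (by omega) z (by rw [show k + 4 + 1 = k + 5 by omega, ha0]; exact hz)
    by_cases ht : t j true z
    · exact ⟨false, fun hf => h ⟨ht, hf⟩⟩
    · exact ⟨true, ht⟩
  have hun : ∀ j j' r r', k + 3 ≤ j → j ≤ k + 5 → k + 3 ≤ j' → j' ≤ k + 5 → t j r x → t j' r' x →
      j = j' ∧ r = r' := by
    intro j j' r r' h1 h2 h3 h4 h5 h6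
    exact hT.un (k + 3) x hx j j' r r' h1 (by omega) h3 (by omega) h5 h6
  have key : ∃ p : W → Prop, (∀ z ∈ a 0, ∀ z' ∈ a 0, p z → p z' → z = z') ∧
      ∀ z ∈ a 0, ¬ p z → (∃ r, ¬ t (k + 4) r (c (k + 3)) ∧ ¬ t (k + 4) r x ∧ ¬ t (k + 4) r z) ∧
        (∃ r, ¬ t 0 r x ∧ ¬ t 0 r z ∧ ¬ t 0 r (c 1)) := by
    by_cases hA : ∃ r, t (k + 4) r x
    · obtain ⟨r, hr⟩ := hA
      refine ⟨t (k + 4) (!r), ?_, ?_⟩
      · intro z hz z' hz' h h'
        exact hC.one (k + 4) (k + 4) (!r) (le_refl _) (by omega) z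
          (by rw [show k + 4 + 1 = k + 5 by omega, ha0]; exact hz) z'
          (by rw [show k + 4 + 1 = k + 5 by omega, ha0]; exact hz') h h'
      · intro z hz hp
        refine ⟨⟨!r, hB.nf (!r), ?_, hp⟩, ?_⟩
        · intro h
          have h2 := (hun (k + 4) (k + 4) r (!r) (by omega) (by omega) (by omega) (by omega) hr h).2
          cases r <;> simp at h2
        · obtain ⟨q, hq⟩ := hsz z hz (k + 5) (by omega) (by omega)
          refine ⟨q, ?_, fun h => hq ((ht0 q z).2 h), (hB.p1 q).1⟩
          intro h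
          have h2 := (hun (k + 4) (k + 5) r q (by omega) (by omega) (by omega) (by omega) hr
            ((ht0 q x).2 h)).1
          omega
    · have hA' : ∀ r, ¬ t (k + 4) r x := fun r h => hA ⟨r, h⟩
      by_cases hD : ∃ r, t 0 r x
      · obtain ⟨r, hr⟩ := hD
        refine ⟨t 0 (!r), ?_, ?_⟩
        · intro z hz z' hz' h h'
          exact hC.one (k + 4) (k + 5) (!r) (by omega) (by omega) z
            (by rw [show k + 4 + 1 = k + 5 by omega, ha0]; exact hz) z'
            (by rw [show k + 4 + 1 = k + 5 by omega, ha0]; exact hz')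
            ((ht0 _ _).2 h) ((ht0 _ _).2 h')
        · intro z hz hp
          refine ⟨?_, ⟨!r, ?_, hp, (hB.p1 (!r)).1⟩⟩
          · obtain ⟨q, hq⟩ := hsz z hz (k + 4) (by omega) (by omega)
            exact ⟨q, hB.nf q, hA' q, hq⟩
          · intro h
            have h2 := (hun (k + 5) (k + 5) r (!r) (by omega) (by omega) (by omega) (by omega)
              ((ht0 r x).2 hr) ((ht0 _ x).2 h)).2
            cases r <;> simp at h2
      · refine ⟨fun _ => False, fun _ _ _ _ h => h.elim, ?_⟩
        intro z hz _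
        constructor
        · obtain ⟨q, hq⟩ := hsz z hz (k + 4) (by omega) (by omega)
          exact ⟨q, hB.nf q, hA' q, hq⟩
        · obtain ⟨q, hq⟩ := hsz z hz (k + 5) (by omega) (by omega)
          exact ⟨q, fun h => hD ⟨q, h⟩, fun h => hq ((ht0 q z).2 h), (hB.p1 q).1⟩
  obtain ⟨p, hp1, hp2⟩ := key
  -- the vertex `0`
  obtain ⟨z, hz, hzP⟩ := hPIG W (a 0) [R x, R (c (k + 3)), R (c 1), R (c 2), p]
    (by
      have := hC.six 0
      simp only [List.length_cons, List.length_nil]
      omega)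
    (by
      intro q hq y hy y' hy' h h'
      simp only [List.mem_cons, List.not_mem_nil, or_false] at hq
      rcases hq with rfl | rfl | rfl | rfl | rfl
      · rw [← ha0] at hy hy'
        exact hC.mat (k + 4) (k + 5) (by omega) (by omega) x hx y hy y' hy' h h'
      · rw [← ha0] at hy hy'
        exact hC.mat (k + 3) (k + 5) (by omega) (by omega) _ mem3 y hy y' hy' h h'
      · exact hC.mat' 0 1 (by omega) (by omega) _ memc1 y hy y' hy' h h'
      · exact hC.mat' 0 2 (by omega) (by omega) _ memc2 y hy y' hy' h h'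
      · exact hp1 y hy y' hy' h h')
  have hz1 : ¬ R x z := hzP _ (by simp)
  have hz2 : ¬ R (c (k + 3)) z := hzP _ (by simp)
  have hz3 : ¬ R (c 1) z := hzP _ (by simp)
  have hz4 : ¬ R (c 2) z := hzP _ (by simp)
  have hz5 : ¬ p z := hzP _ (by simp)
  obtain ⟨hpen1, hpen2⟩ := hp2 z hz hz5
  -- the colouring
  let c' : ℕ → W := fun j => if j = 0 then z else if j = k + 4 then x else c j
  have c0 : c' 0 = z := rfl
  have cm : ∀ j, 1 ≤ j → j ≤ k + 3 → c' j = c j := by
    intro j h1 h2
    show (if j = 0 then z else if j = k + 4 then x else c j) = c j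
    rw [if_neg (by omega), if_neg (by omega)]
  have cx : c' (k + 4) = x := by
    show (if k + 4 = 0 then z else if k + 4 = k + 4 then x else c (k + 4)) = x
    rw [if_neg (by omega), if_pos rfl]
  have hg1 : k + 5 - 1 = k + 4 := by omega
  have hg2 : k + 5 - 2 = k + 3 := by omega
  refine hCLO (k + 5) W a R t c' hC ?_ ?_ ?_ ?_ ?_ ?_ ?_ ?_ ?_
  · intro j hj
    rcases Nat.eq_zero_or_pos j with h | h
    · subst h
      rw [c0]
      exact hz
    · rcases Nat.lt_or_ge j (k + 4) with h' | h'
      · rw [cm j h (by omega)]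
        exact hB.mem j h (by omega)
      · have : j = k + 4 := by omega
        subst this
        rw [cx]
        exact hx
  · intro j hj
    rcases Nat.eq_zero_or_pos j with h | h
    · subst h
      rw [c0, cm (0 + 1) (by omega) (by omega)]
      exact fun hR => hz3 (hC.symm _ _ hR)
    · rcases Nat.lt_or_ge j (k + 3) with h' | h'
      · rw [cm j h (by omega), cm (j + 1) (by omega) (by omega)]
        exact hB.r1 j h (by omega)
      · have : j = k + 3 := by omega
        subst this
        rw [cm (k + 3) (by omega) (le_refl _), cx]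
        exact hx1
  · intro j hj
    rcases Nat.eq_zero_or_pos j with h | h
    · subst h
      rw [c0, cm (0 + 2) (by omega) (by omega)]
      exact fun hR => hz4 (hC.symm _ _ hR)
    · rcases Nat.lt_or_ge j (k + 2) with h' | h'
      · rw [cm j h (by omega), cm (j + 2) (by omega) (by omega)]
        exact hB.r2 j h (by omega)
      · have : j = k + 2 := by omega
        subst this
        rw [cm (k + 2) (by omega) (by omega), cx]
        exact hx2
  · intro j hj
    rcases Nat.eq_zero_or_pos j with h | h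
    · subst h
      rw [c0, cm (0 + 1) (by omega) (by omega), cm (0 + 2) (by omega) (by omega)]
      obtain ⟨q, hq⟩ := hsz z hz (k + 6) (by omega) (le_refl _)
      exact ⟨q, fun h => hq ((ht1 q z).2 h), (hB.p1 q).2.1, (hB.p1 q).2.2⟩
    · rcases Nat.lt_or_ge j (k + 2) with h' | h'
      · rw [cm j h (by omega), cm (j + 1) (by omega) (by omega), cm (j + 2) (by omega) (by omega)]
        exact hB.pn j h (by omega)
      · have : j = k + 2 := by omega
        subst this
        rw [cm (k + 2) (by omega) (by omega), cm (k + 2 + 1) (by omega) (by omega), cx]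
        exact ⟨s, hs1', hs2, hx4⟩
  · rw [hg1, cx, c0]
    exact hz1
  · rw [hg1, cx, cm 1 (by omega) (by omega)]
    exact fun hR => hx3 (hC.symm _ _ hR)
  · rw [hg2, cm (k + 3) (by omega) (le_refl _), c0]
    exact hz2
  · rw [hg1, hg2, cm (k + 3) (by omega) (le_refl _), cx, c0]
    exact hpen1
  · rw [hg1, cx, c0, cm 1 (by omega) (by omega)]
    exact hpen2

theorem BFI (hPIG : PIG_stmt) (hCLO : CLO_stmt) : BFI_stmt := by
  intro g W a R t hC hT c hB
  have hg := hC.g5
  obtain ⟨k, rfl⟩ : ∃ k, g = k + 5 := ⟨g - 5, by omega⟩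
  have hg2 : k + 5 - 2 = k + 3 := by omega
  rw [hg2] at hB
  exact BFI_core hPIG hCLO k W a R t hC hT c hB

end Pool.Agent.helper62.DP8
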